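import Pool.Agent.H88.WR.Targets

/-!
# MP_479f73_an, row C0S: a copy of the space of convergent sequences
-/

set_option autoImplicit false

open Filter Topology Set Pool.Agent.H85.WMP Pool.Agent.H88.WR

namespace Pool.Agent.H54.WR

namespace C0S

variable {𝕜 : Type} [RCLike 𝕜] {F : Type} [NormedAddCommGroup F] [NormedSpace 𝕜 F]

/-- the coordinates of a convergent sequence -/
noncomputable def co (x : C(OnePoint ℕ, 𝕜)) : ℕ → 𝕜
  | 0 => x (OnePoint.infty)
  | i + 1 => x ((i : ℕ) : OnePoint ℕ) - x (OnePoint.infty)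

theorem co_add (x y : C(OnePoint ℕ, 𝕜)) (i : ℕ) : co (x + y) i = co x i + co y i := by
  cases i with
  | zero => rfl
  | succ i =>
    simp only [co, ContinuousMap.add_apply]
    ring

theorem co_smul (r : 𝕜) (x : C(OnePoint ℕ, 𝕜)) (i : ℕ) : co (r • x) i = r * co x i := by
  cases i with
  | zero => rfl
  | succ i =>
    simp only [co, ContinuousMap.smul_apply, smul_eq_mul]
    ring

theorem co_lim (x : C(OnePoint ℕ, 𝕜)) : Tendsto (co x) atTop (𝓝 0) := by
  rw [← tendsto_add_atTop_iff_nat 1]
  have h := (OnePoint.continuous_iff_from_nat (x : OnePoint ℕ → 𝕜)).1 x.continuous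
  have h2 := h.sub_const (x OnePoint.infty)
  rw [sub_self] at h2
  exact h2

theorem co_norm (x : C(OnePoint ℕ, 𝕜)) (i : ℕ) : ‖co x i‖ ≤ 2 * ‖x‖ := by
  have h0 := norm_nonneg x
  cases i with
  | zero =>
    have := x.norm_coe_le_norm OnePoint.infty
    simp only [co]
    linarith
  | succ i =>
    have h1 := x.norm_coe_le_norm OnePoint.infty
    have h2 := x.norm_coe_le_norm ((i : ℕ) : OnePoint ℕ)
    have h3 := norm_sub_le (x ((i : ℕ) : OnePoint ℕ)) (x OnePoint.infty)
    simp only [co]
    linarith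

end C0S

open C0S

/-- C0S: a copy of the space of convergent sequences. -/
theorem pf_C0S (𝕜 : Type) [RCLike 𝕜] : T_C0S 𝕜 := by
  intro F _ _ _ hF
  obtain ⟨y, c, C, hc, h⟩ := hF
  have hC : 0 ≤ C := by
    have h1 := (h ∅ 0 1 zero_le_one (by simp)).1
    simpa using h1
  have hsum : ∀ x : C(OnePoint ℕ, 𝕜), Summable fun i => co x i • y i := by
    intro x
    rw [summable_iff_vanishing_norm]
    intro ε hε
    have h1 : 0 < ε / (C + 1) := by positivity
    obtain ⟨N, hN⟩ := Metric.tendsto_atTop.1 (co_lim x) _ h1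
    refine ⟨Finset.range N, fun t ht => ?_⟩
    have h2 := (h t (co x) (ε / (C + 1)) h1.le (fun i hi => ?_)).1
    · refine h2.trans_lt ?_
      rw [mul_div_assoc', div_lt_iff₀ (by positivity)]
      nlinarith
    · have h3 : N ≤ i := by
        by_contra hc'
        exact Finset.disjoint_left.1 ht hi (Finset.mem_range.2 (by omega))
      have h4 := hN i h3
      rw [dist_zero_right] at h4
      exact h4.le
  have hup : ∀ (x : C(OnePoint ℕ, 𝕜)), ‖∑' i, co x i • y i‖ ≤ 2 * C * ‖x‖ := by
    intro x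
    refine le_of_tendsto (hsum x).hasSum.norm (Filter.Eventually.of_forall fun s => ?_)
    have h1 := (h s (co x) (2 * ‖x‖) (by positivity) fun i _ => co_norm x i).1
    linarith
  have hlow : ∀ (x : C(OnePoint ℕ, 𝕜)) (i : ℕ), c * ‖co x i‖ ≤ ‖∑' i, co x i • y i‖ := by
    intro x i
    refine ge_of_tendsto (hsum x).hasSum.norm ?_
    filter_upwards [eventually_ge_atTop ({i} : Finset ℕ)] with s hs
    exact (h s (co x) (2 * ‖x‖) (by positivity) fun i _ => co_norm x i).2 i
      (hs (Finset.mem_singleton_self i))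
  let S : C(OnePoint ℕ, 𝕜) →ₗ[𝕜] F :=
    { toFun := fun x => ∑' i, co x i • y i
      map_add' := by
        intro x x'
        rw [← (hsum x).tsum_add (hsum x')]
        refine tsum_congr fun i => ?_
        rw [co_add, add_smul]
      map_smul' := by
        intro r x
        rw [RingHom.id_apply, ← (hsum x).tsum_const_smul r]
        refine tsum_congr fun i => ?_
        rw [co_smul, mul_smul] }
  refine ⟨S.mkContinuous (2 * C) hup, c / 2, by positivity, fun x => ?_⟩
  change c / 2 * ‖x‖ ≤ ‖∑' i, co x i • y i‖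
  have h1 : ‖x‖ ≤ 2 / c * ‖∑' i, co x i • y i‖ := by
    rw [ContinuousMap.norm_le _ (by positivity)]
    have hinf : ‖x OnePoint.infty‖ ≤ 1 / c * ‖∑' i, co x i • y i‖ := by
      have h2 := hlow x 0
      rw [div_mul_eq_mul_div, one_mul, le_div_iff₀ hc, mul_comm]
      exact h2
    have hZ := norm_nonneg (∑' i, co x i • y i)
    intro z
    induction z using OnePoint.rec with
    | infty =>
      refine hinf.trans ?_
      gcongr
      norm_num
    | coe i =>
      have h2 := hlow x (i + 1)
      have h3 : ‖x (i : OnePoint ℕ) - x OnePoint.infty‖ ≤ 1 / c * ‖∑' i, co x i • y i‖ := by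
        rw [div_mul_eq_mul_div, one_mul, le_div_iff₀ hc, mul_comm]
        exact h2
      have h4 : ‖x (i : OnePoint ℕ)‖ ≤ ‖x (i : OnePoint ℕ) - x OnePoint.infty‖ +
          ‖x OnePoint.infty‖ := by
        simpa using norm_add_le (x (i : OnePoint ℕ) - x OnePoint.infty) (x OnePoint.infty)
      have h5 : 2 / c * ‖∑' i, co x i • y i‖ = 1 / c * ‖∑' i, co x i • y i‖ +
          1 / c * ‖∑' i, co x i • y i‖ := by ring
      linarith
  have h2 : c / 2 * (2 / c * ‖∑' i, co x i • y i‖) = ‖∑' i, co x i • y i‖ := by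
    field_simp
  calc c / 2 * ‖x‖ ≤ c / 2 * (2 / c * ‖∑' i, co x i • y i‖) := by gcongr
    _ = _ := h2

end Pool.Agent.H54.WR
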