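import Pool.Agent.H88.WR.Targets

/-!
# MP_479f73_an, row RFX: the dual is reflexive
-/

set_option autoImplicit false

open Filter Topology Set Pool.Agent.H85.WMP Pool.Agent.H88.WR

namespace Pool.Agent.H54.WR

namespace RFX

variable {𝕜 : Type} [RCLike 𝕜] {M : Set (Finset ℕ)} {N : (ℕ →₀ 𝕜) → ℝ}

theorem filter_lt_eq (x : ℕ →₀ 𝕜) (n : ℕ) :
    x.filter (· < n) = ∑ i ∈ Finset.range n, Finsupp.single i (x i) := by
  ext k
  rw [Finsupp.finset_sum_apply]
  by_cases hk : k < n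
  · rw [Finsupp.filter_apply_pos (fun i => i < n) _ hk, Finset.sum_eq_single k]
    · rw [Finsupp.single_eq_same]
    · intro b _ hb
      rw [Finsupp.single_apply, if_neg hb]
    · intro h
      exact absurd (Finset.mem_range.2 hk) h
  · rw [Finsupp.filter_apply_neg (fun i => i < n) _ hk, Finset.sum_eq_zero]
    intro b hb
    rw [Finsupp.single_apply, if_neg]
    rintro rfl
    exact hk (Finset.mem_range.1 hb)

theorem split_lt (x : ℕ →₀ 𝕜) (n : ℕ) : x - x.filter (· < n) = x.filter (n ≤ ·) := by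
  ext k
  rw [Finsupp.sub_apply]
  by_cases hk : k < n
  · rw [Finsupp.filter_apply_pos (fun i => i < n) _ hk,
      Finsupp.filter_apply_neg (fun i => n ≤ i) _ (not_le.2 hk), sub_self]
  · rw [Finsupp.filter_apply_neg (fun i => i < n) _ hk,
      Finsupp.filter_apply_pos (fun i => n ≤ i) _ (not_lt.1 hk), sub_zero]

theorem filter_filter_le (x : ℕ →₀ 𝕜) {n m : ℕ} (h : n ≤ m) :
    (x.filter (m ≤ ·)).filter (n ≤ ·) = x.filter (m ≤ ·) := by
  ext k
  by_cases hk : m ≤ k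
  · rw [Finsupp.filter_apply_pos (fun i => n ≤ i) _ (h.trans hk)]
  · rw [Finsupp.filter_apply_neg (fun i => m ≤ i) _ hk]
    by_cases hk' : n ≤ k
    · rw [Finsupp.filter_apply_pos (fun i => n ≤ i) _ hk', Finsupp.filter_apply_neg (fun i => m ≤ i) _ hk]
    · rw [Finsupp.filter_apply_neg (fun i => n ≤ i) _ hk']

/-- the coordinate functionals -/
noncomputable def eps (hN : TN 𝕜 M N) (S : Spc 𝕜 N) (i : ℕ) : S.D :=
  LinearMap.mkContinuous ((Finsupp.lapply i : (ℕ →₀ 𝕜) →ₗ[𝕜] 𝕜) ∘ₗ S.e.symm.toLinearMap) 1 (by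
    intro v
    have h1 := hN.coord (S.e.symm v) i
    rw [← S.norm_e, S.e.apply_symm_apply] at h1
    rw [one_mul]
    exact h1)

theorem eps_apply (hN : TN 𝕜 M N) (S : Spc 𝕜 N) (i : ℕ) (x : ℕ →₀ 𝕜) :
    eps hN S i (S.e x) = x i := by
  change (S.e.symm (S.e x)) i = x i
  rw [S.e.symm_apply_apply]

end RFX

open RFX

/-- RFX: the dual is reflexive. -/
theorem pf_RFX (𝕜 : Type) [RCLike 𝕜] (hTAI : T_TAI 𝕜) (hCAU : T_CAU 𝕜) (hPRJ : T_PRJ 𝕜) :
    T_RFX 𝕜 := by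
  intro M N hM hN S
  -- density
  have key : ∀ (Φ : StrongDual 𝕜 S.D) (δ : ℝ), 0 < δ →
      ∃ v : S.X, ‖Φ - NormedSpace.inclusionInDoubleDual 𝕜 S.X v‖ ≤ δ := by
    intro Φ δ hδ
    set a : ℕ → 𝕜 := fun i => Φ (eps hN S i) with ha
    set v : ℕ → S.X := fun n => S.e (∑ i ∈ Finset.range n, Finsupp.single i (a i)) with hv
    have hproj : ∀ (c : S.D) (n : ℕ), ∃ c' : S.D, ‖c'‖ ≤ ‖c‖ ∧
        (∀ x : ℕ →₀ 𝕜, c' (S.e x) = c (S.e (x.filter (· < n)))) ∧ Φ c' = c (v n) := by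
      intro c n
      obtain ⟨c', h1, h2⟩ := hPRJ M N hN S c (· < n)
      refine ⟨c', h1, h2, ?_⟩
      have h3 : c' = ∑ i ∈ Finset.range n, c (S.e (Finsupp.single i 1)) • eps hN S i := by
        ext w
        obtain ⟨x, rfl⟩ := S.e.surjective w
        rw [h2, filter_lt_eq, map_sum, map_sum]
        simp only [FunLike.coe_sum, Finset.sum_apply, smul_apply,
          eps_apply, smul_eq_mul]
        refine Finset.sum_congr rfl fun i _ => ?_
        have h4 : Finsupp.single i (x i) = x i • Finsupp.single i (1 : 𝕜) := by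
          rw [Finsupp.smul_single, smul_eq_mul, mul_one]
        rw [h4, map_smul, map_smul, smul_eq_mul, mul_comm]
      rw [h3, map_sum, hv]
      simp only [map_sum, map_smul, smul_eq_mul]
      refine Finset.sum_congr rfl fun i _ => ?_
      have h4 : Finsupp.single i (a i) = a i • Finsupp.single i (1 : 𝕜) := by
        rw [Finsupp.smul_single, smul_eq_mul, mul_one]
      rw [h4, map_smul, map_smul, smul_eq_mul, mul_comm]
    have hbd : ∀ n, N (∑ i ∈ Finset.range n, Finsupp.single i (a i)) ≤ ‖Φ‖ := by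
      intro n
      rw [← S.norm_e]
      refine NormedSpace.norm_le_dual_bound 𝕜 _ (ContinuousLinearMap.opNorm_nonneg Φ) fun c => ?_
      obtain ⟨c', h1, -, h3⟩ := hproj c n
      change ‖c (v n)‖ ≤ _
      rw [← h3]
      exact (Φ.le_opNorm c').trans (by gcongr)
    have hlim : ∀ (c : S.D) (η : ℝ), 0 < η → ∃ n₁, ∀ n, n₁ ≤ n → ‖Φ c - c (v n)‖ ≤ ‖Φ‖ * η := by
      intro c η hη
      obtain ⟨n₁, hn₁⟩ := hTAI M N hM hN S c η hη
      refine ⟨n₁, fun n hn => ?_⟩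
      obtain ⟨c', -, h2, h3⟩ := hproj c n
      rw [← h3, ← map_sub]
      refine (Φ.le_opNorm _).trans ?_
      gcongr
      refine ContinuousLinearMap.opNorm_le_bound _ hη.le fun w => ?_
      obtain ⟨x, rfl⟩ := S.e.surjective w
      rw [sub_apply, h2, ← map_sub, ← map_sub, split_lt, S.norm_e]
      have h4 := hn₁ (x.filter (n ≤ ·))
      rw [filter_filter_le x hn] at h4
      refine h4.trans ?_
      have := hN.filter (n ≤ ·) x
      gcongr
    obtain ⟨n₀, hn₀⟩ := hCAU M N hM hN a ‖Φ‖ hbd δ hδ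
    refine ⟨v n₀, ContinuousLinearMap.opNorm_le_bound _ hδ.le fun c => ?_⟩
    rw [sub_apply, NormedSpace.dual_def]
    refine le_of_forall_pos_le_add fun η hη => ?_
    obtain ⟨n₁, hn₁⟩ := hlim c (η / (‖Φ‖ + 1)) (by positivity)
    have h1 := hn₁ (max n₀ n₁) (le_max_right _ _)
    have h2 := hn₀ (max n₀ n₁) (le_max_left _ _)
    have h3 : v (max n₀ n₁) - v n₀ =
        S.e (∑ i ∈ Finset.Ico n₀ (max n₀ n₁), Finsupp.single i (a i)) := by
      rw [hv]
      simp only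
      rw [← map_sub, Finset.sum_Ico_eq_sub _ (le_max_left _ _)]
    have h4 : ‖c (v (max n₀ n₁) - v n₀)‖ ≤ δ * ‖c‖ := by
      refine (c.le_opNorm _).trans ?_
      rw [h3, S.norm_e, mul_comm]
      gcongr
    have h5 : ‖Φ‖ * (η / (‖Φ‖ + 1)) ≤ η := by
      rw [mul_div_assoc', div_le_iff₀ (by positivity)]
      nlinarith [norm_nonneg Φ]
    calc ‖Φ c - c (v n₀)‖ = ‖(Φ c - c (v (max n₀ n₁))) + c (v (max n₀ n₁) - v n₀)‖ := by
          rw [map_sub]
          congr 1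
          ring
      _ ≤ ‖Φ c - c (v (max n₀ n₁))‖ + ‖c (v (max n₀ n₁) - v n₀)‖ := norm_add_le _ _
      _ ≤ δ * ‖c‖ + η := by linarith
  intro Ψ
  refine ⟨Ψ.comp (NormedSpace.inclusionInDoubleDual 𝕜 S.X), ?_⟩
  set b : S.D := Ψ.comp (NormedSpace.inclusionInDoubleDual 𝕜 S.X) with hb
  ext Φ
  rw [NormedSpace.dual_def]
  have h1 : ∀ δ : ℝ, 0 < δ → ‖Φ b - Ψ Φ‖ ≤ δ * (‖b‖ + ‖Ψ‖) := by
    intro δ hδ
    obtain ⟨v, hv⟩ := key Φ δ hδ
    have h2 : Φ b - Ψ Φ = (Φ - NormedSpace.inclusionInDoubleDual 𝕜 S.X v) b -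
        Ψ (Φ - NormedSpace.inclusionInDoubleDual 𝕜 S.X v) := by
      rw [map_sub, sub_apply, NormedSpace.dual_def]
      have h3 : b v = Ψ (NormedSpace.inclusionInDoubleDual 𝕜 S.X v) := rfl
      rw [h3]
      ring
    rw [h2]
    have h4 := (Φ - NormedSpace.inclusionInDoubleDual 𝕜 S.X v).le_opNorm b
    have h5 := Ψ.le_opNorm (Φ - NormedSpace.inclusionInDoubleDual 𝕜 S.X v)
    have h6 := norm_sub_le ((Φ - NormedSpace.inclusionInDoubleDual 𝕜 S.X v) b)
      (Ψ (Φ - NormedSpace.inclusionInDoubleDual 𝕜 S.X v))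
    have h7 : ‖Φ - NormedSpace.inclusionInDoubleDual 𝕜 S.X v‖ * ‖b‖ ≤ δ * ‖b‖ := by gcongr
    have h8 : ‖Ψ‖ * ‖Φ - NormedSpace.inclusionInDoubleDual 𝕜 S.X v‖ ≤ ‖Ψ‖ * δ := by gcongr
    linarith
  have h2 : ‖Φ b - Ψ Φ‖ ≤ 0 := by
    refine le_of_forall_pos_le_add fun η hη => ?_
    have h3 := h1 (η / (‖b‖ + ‖Ψ‖ + 1)) (by positivity)
    refine h3.trans ?_
    rw [zero_add, div_mul_eq_mul_div, div_le_iff₀ (by positivity)]
    exact mul_le_mul_of_nonneg_left (by linarith) hη.le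
  exact sub_eq_zero.1 (norm_le_zero_iff.1 h2)

end Pool.Agent.H54.WR
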